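import Mathlib

/-!
# Fréchet algebras, Fréchet modules, injectivity; the algebra `zℂ[[z]]`
-/

set_option autoImplicit false

namespace Pool.Agent.W666

universe u

/-- Fréchet spaces: complete Hausdorff locally convex spaces with a countable neighbourhood basis of
zero (the topology is given by a family of seminorms, `PolynormableSpace`). -/
class IsFrechetSpace (E : Type*) [AddCommGroup E] [Module ℂ E] [UniformSpace E] : Prop where
  uniform : IsUniformAddGroup E
  convex : PolynormableSpace ℂ E
  complete : CompleteSpace E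
  separated : T2Space E
  countable : FirstCountableTopology E

/-- Fréchet algebras: associative complex algebras (a unit is not required) that are Fréchet spaces
and whose multiplication is jointly continuous. -/
class IsFrechetAlgebra (A : Type*) [NonUnitalRing A] [Module ℂ A] [UniformSpace A] : Prop where
  frechet : IsFrechetSpace A
  tower : IsScalarTower ℂ A A
  comm : SMulCommClass ℂ A A
  mul : ContinuousMul A

/-- Left module structures with jointly continuous action. -/
structure LeftModule (A X : Type*) [NonUnitalRing A] [Module ℂ A] [UniformSpace A]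
    [AddCommGroup X] [Module ℂ X] [UniformSpace X] where
  act : A → X → X
  add_act : ∀ a b x, act (a + b) x = act a x + act b x
  act_add : ∀ a x y, act a (x + y) = act a x + act a y
  smul_act : ∀ (c : ℂ) a x, act (c • a) x = c • act a x
  act_smul : ∀ (c : ℂ) a x, act a (c • x) = c • act a x
  mul_act : ∀ a b x, act (a * b) x = act a (act b x)
  continuous_act : Continuous fun p : A × X => act p.1 p.2

section

variable {A : Type*} [NonUnitalRing A] [Module ℂ A] [UniformSpace A]

/-- Morphisms of modules: continuous `A`-linear maps. -/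
def IsMorphism {X Y : Type*} [AddCommGroup X] [Module ℂ X] [UniformSpace X]
    [AddCommGroup Y] [Module ℂ Y] [UniformSpace Y]
    (mX : LeftModule A X) (mY : LeftModule A Y) (f : X →L[ℂ] Y) : Prop :=
  ∀ a x, f (mX.act a x) = mY.act a (f x)

/-- Injectivity of the Fréchet module `X`: every morphism `φ : X → Y` of Fréchet modules which has a
continuous linear left inverse has a left inverse which is a morphism of modules. -/
def IsInjective {X : Type u} [AddCommGroup X] [Module ℂ X] [UniformSpace X]
    (mX : LeftModule A X) : Prop :=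
  ∀ (Y : Type u) [AddCommGroup Y] [Module ℂ Y] [UniformSpace Y] [IsFrechetSpace Y]
    (mY : LeftModule A Y) (φ : X →L[ℂ] Y), IsMorphism mX mY φ →
    (∃ r : Y →L[ℂ] X, ∀ x, r (φ x) = x) →
    ∃ ψ : Y →L[ℂ] X, IsMorphism mY mX ψ ∧ ∀ x, ψ (φ x) = x

end

/-- The algebra `z ℂ[[z]]` of formal power series without constant term: the sequence `a` stands for
`∑ a n * z ^ (n + 1)`. -/
def ZSeries : Type := ℕ → ℂ

noncomputable section

namespace ZSeries

instance : AddCommGroup ZSeries := inferInstanceAs (AddCommGroup (ℕ → ℂ))
instance : Module ℂ ZSeries := inferInstanceAs (Module ℂ (ℕ → ℂ))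
instance : UniformSpace ZSeries := inferInstanceAs (UniformSpace (ℕ → ℂ))

/-- the sequence of coefficients -/
def co (a : ZSeries) : ℕ → ℂ := a

/-- `∑ a n * z ^ (n + 1)` as a formal power series -/
def ser (a : ZSeries) : PowerSeries ℂ := PowerSeries.X * PowerSeries.mk (co a)

theorem coeff_ser_zero (a : ZSeries) : PowerSeries.coeff 0 (ser a) = 0 := by
  simp [ser]

theorem coeff_ser_succ (a : ZSeries) (n : ℕ) : PowerSeries.coeff (n + 1) (ser a) = co a n := by
  rw [ser, PowerSeries.coeff_succ_X_mul, PowerSeries.coeff_mk]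

theorem ser_inj : Function.Injective ser := by
  intro a b h
  funext n
  have := congrArg (PowerSeries.coeff (n + 1)) h
  rwa [coeff_ser_succ, coeff_ser_succ] at this

/-- the product -/
instance : Mul ZSeries := ⟨fun a b n => PowerSeries.coeff (n + 1) (ser a * ser b)⟩

theorem co_mul (a b : ZSeries) (n : ℕ) :
    co (a * b) n = PowerSeries.coeff (n + 1) (ser a * ser b) := rfl

theorem ser_mul (a b : ZSeries) : ser (a * b) = ser a * ser b := by
  ext n
  cases n with
  | zero =>
    rw [coeff_ser_zero, PowerSeries.coeff_mul]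
    simp [coeff_ser_zero]
  | succ n => rw [coeff_ser_succ, co_mul]

theorem ser_zero : ser 0 = 0 := by
  ext n
  cases n with
  | zero => rw [coeff_ser_zero, map_zero]
  | succ n => rw [coeff_ser_succ, map_zero]; rfl

theorem ser_add (a b : ZSeries) : ser (a + b) = ser a + ser b := by
  ext n
  cases n with
  | zero => rw [coeff_ser_zero, map_add, coeff_ser_zero, coeff_ser_zero, add_zero]
  | succ n => rw [coeff_ser_succ, map_add, coeff_ser_succ, coeff_ser_succ]; rfl

theorem ser_smul (c : ℂ) (a : ZSeries) : ser (c • a) = c • ser a := by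
  ext n
  cases n with
  | zero => rw [coeff_ser_zero, map_smul, coeff_ser_zero, smul_zero]
  | succ n => rw [coeff_ser_succ, map_smul, coeff_ser_succ]; rfl

instance : NonUnitalCommRing ZSeries where
  left_distrib a b c := ser_inj (by simp only [ser_mul, ser_add, mul_add])
  right_distrib a b c := ser_inj (by simp only [ser_mul, ser_add, add_mul])
  zero_mul a := ser_inj (by simp only [ser_mul, ser_zero, zero_mul])
  mul_zero a := ser_inj (by simp only [ser_mul, ser_zero, mul_zero])
  mul_assoc a b c := ser_inj (by simp only [ser_mul, mul_assoc])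
  mul_comm a b := ser_inj (by simp only [ser_mul, mul_comm])

instance : IsScalarTower ℂ ZSeries ZSeries :=
  ⟨fun c a b => ser_inj (by simp only [smul_eq_mul, ser_mul, ser_smul, smul_mul_assoc])⟩

instance : SMulCommClass ℂ ZSeries ZSeries :=
  ⟨fun c a b => ser_inj (by simp only [smul_eq_mul, ser_mul, ser_smul, mul_smul_comm])⟩

theorem continuous_co (n : ℕ) : Continuous fun a : ZSeries => co a n :=
  (continuous_apply n : Continuous fun a : ℕ → ℂ => a n)

theorem continuous_coeff (n : ℕ) : Continuous fun a : ZSeries => PowerSeries.coeff n (ser a) := by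
  cases n with
  | zero => simp only [coeff_ser_zero]; exact continuous_const
  | succ n => simp only [coeff_ser_succ]; exact continuous_co n

instance : ContinuousMul ZSeries := by
  refine ⟨?_⟩
  have h : ∀ n, Continuous fun p : ZSeries × ZSeries => co (p.1 * p.2) n := by
    intro n
    simp only [co_mul, PowerSeries.coeff_mul]
    exact continuous_finsetSum _ fun q _ =>
      ((continuous_coeff q.1).comp continuous_fst).mul ((continuous_coeff q.2).comp continuous_snd)
  exact (continuous_pi h : Continuous fun p : ZSeries × ZSeries => co (p.1 * p.2))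

instance : IsFrechetSpace ZSeries where
  uniform := inferInstanceAs (IsUniformAddGroup (ℕ → ℂ))
  convex := inferInstanceAs (PolynormableSpace ℂ (ℕ → ℂ))
  complete := inferInstanceAs (CompleteSpace (ℕ → ℂ))
  separated := inferInstanceAs (T2Space (ℕ → ℂ))
  countable := inferInstanceAs (FirstCountableTopology (ℕ → ℂ))

instance : IsFrechetAlgebra ZSeries where
  frechet := inferInstance
  tower := inferInstance
  comm := inferInstance
  mul := inferInstance

/-- the monomial `z ^ (n + 1)` -/
def mono (n : ℕ) : ZSeries := fun k => if k = n then 1 else 0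

theorem co_mono (n k : ℕ) : co (mono n) k = if k = n then 1 else 0 := rfl

theorem ser_mono (n : ℕ) : ser (mono n) = PowerSeries.X ^ (n + 1) := by
  ext k
  cases k with
  | zero => rw [coeff_ser_zero, PowerSeries.coeff_X_pow]; simp
  | succ k => rw [coeff_ser_succ, PowerSeries.coeff_X_pow, co_mono]; simp

theorem mono_succ (n : ℕ) : mono (n + 1) = mono 0 * mono n := by
  apply ser_inj
  rw [ser_mul, ser_mono, ser_mono, ser_mono]
  ring

/-- division by `z` followed by removal of the constant term -/
def sh (a : ZSeries) : ZSeries := fun k => co a (k + 1)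

theorem co_sh (a : ZSeries) (k : ℕ) : co (sh a) k = co a (k + 1) := rfl

theorem continuous_sh : Continuous sh :=
  (continuous_pi fun n => continuous_co (n + 1) : Continuous fun a : ZSeries => co (sh a))

theorem ser_eq (a : ZSeries) :
    ser a = PowerSeries.X * (PowerSeries.C (co a 0) + ser (sh a)) := by
  ext k
  cases k with
  | zero => simp [coeff_ser_zero]
  | succ k =>
    rw [coeff_ser_succ, PowerSeries.coeff_succ_X_mul, map_add]
    cases k with
    | zero => simp [coeff_ser_zero]
    | succ k => rw [coeff_ser_succ, co_sh, PowerSeries.coeff_C]; simp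

theorem co_mul_zero (a b : ZSeries) : co (a * b) 0 = 0 := by
  rw [co_mul, ser_eq a, ser_eq b, mul_mul_mul_comm, mul_assoc, PowerSeries.coeff_succ_X_mul]
  simp

theorem sh_mul (a b : ZSeries) : sh (a * b) = co b 0 • a + a * sh b := by
  apply ser_inj
  have h1 := ser_eq (a * b)
  rw [co_mul_zero, map_zero, zero_add, ser_mul] at h1
  have h2 := ser_eq b
  rw [h2] at h1
  have h3 : PowerSeries.X * (ser a * (PowerSeries.C (co b 0) + ser (sh b))) =
      PowerSeries.X * ser (sh (a * b)) := by
    rw [← h1]; ring
  have h4 := mul_left_cancel₀ PowerSeries.X_ne_zero h3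
  rw [← h4, ser_add, ser_smul, ser_mul, PowerSeries.smul_eq_C_mul]
  ring

theorem sh_add (a b : ZSeries) : sh (a + b) = sh a + sh b := rfl
theorem sh_smul (c : ℂ) (a : ZSeries) : sh (c • a) = c • sh a := rfl
theorem sh_mono_zero : sh (mono 0) = 0 := by
  funext k
  show co (mono 0) (k + 1) = 0
  rw [co_mono]
  simp

end ZSeries

end

section

variable {X : Type u} [AddCommGroup X] [Module ℂ X] [UniformSpace X]

theorem isFrechetSpace_prod [h : IsFrechetSpace X] : IsFrechetSpace (X × X) := by
  obtain ⟨h1, h2, h3, h4, h5⟩ := h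
  exact ⟨inferInstance, inferInstance, inferInstance, inferInstance, inferInstance⟩

theorem LeftModule.zero_act' {A : Type*} [NonUnitalRing A] [Module ℂ A] [UniformSpace A]
    (m : LeftModule A X) (x : X) : m.act 0 x = 0 := by
  have := m.add_act 0 0 x
  rw [add_zero] at this
  simpa using this

theorem LeftModule.act_zero' {A : Type*} [NonUnitalRing A] [Module ℂ A] [UniformSpace A]
    (m : LeftModule A X) (a : A) : m.act a 0 = 0 := by
  have := m.act_add a 0 0
  rw [add_zero] at this
  simpa using this

open ZSeries

/-- The module `X × X` with `z * (x, y) = (z * x + y, 0)`. -/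
noncomputable def dbl [h : IsFrechetSpace X] (m : LeftModule ZSeries X) :
    LeftModule ZSeries (X × X) where
  act a p := (m.act a p.1 + (co a 0 • p.2 + m.act (sh a) p.2), 0)
  add_act a b p := by
    ext
    · simp only [Prod.fst_add, sh_add, m.add_act]
      have : co (a + b) 0 = co a 0 + co b 0 := rfl
      rw [this, add_smul]
      abel
    · simp
  act_add a p q := by
    ext
    · simp only [Prod.fst_add, Prod.snd_add, m.act_add, smul_add]
      abel
    · simp
  smul_act c a p := by
    ext
    · simp only [Prod.smul_fst, sh_smul, m.smul_act, smul_add]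
      have : co (c • a) 0 = c * co a 0 := rfl
      rw [this, mul_smul]
    · simp
  act_smul c a p := by
    ext
    · simp only [Prod.smul_fst, Prod.smul_snd, m.act_smul, smul_add, smul_comm c]
    · simp
  mul_act a b p := by
    ext
    · simp only [co_mul_zero, sh_mul, m.mul_act, m.add_act, m.smul_act, zero_smul, zero_add,
        m.act_add, m.act_smul, m.act_zero', smul_zero, add_zero]
    · simp
  continuous_act := by
    have h0 : PolynormableSpace ℂ X := h.convex
    have h1 : IsTopologicalAddGroup X := (PolynormableSpace.withSeminorms ℂ X).topologicalAddGroup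
    have h2 : ContinuousSMul ℂ X := (PolynormableSpace.withSeminorms ℂ X).continuousSMul
    have hc := m.continuous_act
    refine Continuous.prodMk ?_ continuous_const
    refine Continuous.add ?_ (Continuous.add ?_ ?_)
    · exact hc.comp (continuous_fst.prodMk (continuous_fst.comp continuous_snd))
    · exact ((continuous_co 0).comp continuous_fst).smul (continuous_snd.comp continuous_snd)
    · exact hc.comp ((continuous_sh.comp continuous_fst).prodMk (continuous_snd.comp continuous_snd))

theorem dbl_act [IsFrechetSpace X] (m : LeftModule ZSeries X) (a : ZSeries) (p : X × X) :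
    (dbl m).act a p = (m.act a p.1 + (co a 0 • p.2 + m.act (sh a) p.2), 0) := rfl

theorem nhds_zero_pi (S : Set (ℕ → ℂ)) (hS : S ∈ nhds (fun _ => 0 : ℕ → ℂ)) :
    ∃ I : Set ℕ, I.Finite ∧ ∃ t : ℕ → Set ℂ,
      (∀ i, t i ∈ nhds (0 : ℂ)) ∧ ∀ a : ℕ → ℂ, (∀ i ∈ I, a i ∈ t i) → a ∈ S := by
  rw [nhds_pi, Filter.mem_pi] at hS
  exact hS

theorem nhds_zero_basis {S : Set ZSeries} (hS : S ∈ nhds 0) :
    ∃ I : Set ℕ, I.Finite ∧ ∃ t : ℕ → Set ℂ,
      (∀ i, t i ∈ nhds (0 : ℂ)) ∧ ∀ a : ZSeries, (∀ i ∈ I, co a i ∈ t i) → a ∈ S :=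
  nhds_zero_pi S hS

/-- High powers of `z` map the whole module into a given neighbourhood of zero. -/
theorem small [h : IsFrechetSpace X] (m : LeftModule ZSeries X) {V : Set X} (hV : V ∈ nhds (0 : X)) :
    ∃ n, ∀ x, m.act (mono n) x ∈ V := by
  have h0 : PolynormableSpace ℂ X := h.convex
  have h2 : ContinuousSMul ℂ X := (PolynormableSpace.withSeminorms ℂ X).continuousSMul
  have hc : Filter.Tendsto (fun p : ZSeries × X => m.act p.1 p.2) (nhds ((0 : ZSeries), (0 : X)))
      (nhds 0) := by
    have := m.continuous_act.tendsto ((0 : ZSeries), (0 : X))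
    simpa only [m.zero_act'] using this
  have h3 := hc hV
  rw [Filter.mem_map, nhds_prod_eq, Filter.mem_prod_iff] at h3
  obtain ⟨S, hS, W, hW, hSW⟩ := h3
  obtain ⟨I, hI, t, ht, hIt⟩ : ∃ I : Set ℕ, I.Finite ∧ ∃ t : ℕ → Set ℂ,
      (∀ i, t i ∈ nhds (0 : ℂ)) ∧ ∀ a : ZSeries, (∀ i ∈ I, co a i ∈ t i) → a ∈ S := by
    exact nhds_zero_basis hS
  obtain ⟨n, hn⟩ := hI.bddAbove
  refine ⟨n + 1, fun x => ?_⟩
  have hx : Filter.Tendsto (fun c : ℂ => c • x) (nhds 0) (nhds 0) := by
    have : Filter.Tendsto (fun c : ℂ => c • x) (nhds 0) (nhds ((0 : ℂ) • x)) :=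
      (continuous_id.smul continuous_const).tendsto 0
    simpa using this
  have h4 : ∀ᶠ c : ℂ in nhds 0, c • x ∈ W := hx hW
  have h5 : ∀ᶠ c : ℂ in nhdsWithin 0 {0}ᶜ, c • x ∈ W := h4.filter_mono nhdsWithin_le_nhds
  obtain ⟨c, hcW, hc0⟩ := (h5.and self_mem_nhdsWithin).exists
  have hc0 : c ≠ 0 := hc0
  have h6 : (c⁻¹ • mono (n + 1) : ZSeries) ∈ S := by
    apply hIt
    intro i hi
    have h7 : i ≤ n := hn hi
    have h8 : co (c⁻¹ • mono (n + 1) : ZSeries) i = 0 := by
      show c⁻¹ * co (mono (n + 1)) i = 0
      rw [co_mono, if_neg (by omega), mul_zero]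
    rw [h8]
    exact mem_of_mem_nhds (ht i)
  have h9 : m.act (c⁻¹ • mono (n + 1)) (c • x) ∈ V := hSW (Set.mk_mem_prod h6 hcW)
  rwa [m.smul_act, m.act_smul, smul_smul, inv_mul_cancel₀ hc0, one_smul] at h9

/-- There are no non-zero injective Fréchet modules over `z ℂ[[z]]`. -/
theorem eq_zero_of_injective [h : IsFrechetSpace X] (m : LeftModule ZSeries X)
    (hm : IsInjective m) (x : X) : x = 0 := by
  have h4 : T2Space X := h.separated
  have hf : IsFrechetSpace (X × X) := isFrechetSpace_prod
  obtain ⟨ψ, h1, h2⟩ := hm (X × X) (dbl m) (ContinuousLinearMap.inl ℂ X X)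
    (fun a x => by
      rw [dbl_act]
      simp [m.act_zero'])
    ⟨ContinuousLinearMap.fst ℂ X X, fun x => by simp⟩
  -- `ρ` is a right inverse of `z`
  set ρ : X → X := fun x => ψ (0, x) with hρ
  have h3 : ∀ x, m.act (mono 0) (ρ x) = x := by
    intro x
    rw [hρ]
    simp only
    rw [← h1, dbl_act, sh_mono_zero, m.zero_act', m.act_zero']
    have h5 : co (mono 0) 0 = 1 := rfl
    rw [h5, one_smul]
    simpa using h2 x
  have h6 : ∀ n x, m.act (mono n) (ρ^[n + 1] x) = x := by
    intro n
    induction n with
    | zero => intro x; simpa using h3 x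
    | succ n ih =>
      intro x
      rw [mono_succ, mul_comm, m.mul_act, Function.iterate_succ_apply', h3, ih]
  by_contra hx
  have hV : {x}ᶜ ∈ nhds (0 : X) := isOpen_compl_singleton.mem_nhds (by simpa using Ne.symm hx)
  obtain ⟨n, hn⟩ := small m hV
  exact hn _ (h6 n x)

end

end Pool.Agent.W666
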